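import Pool.Agent.Y995.LG.Stm

/-!
# Project LG: gauge inequality for arcs
-/

set_option autoImplicit false

namespace Pool.Agent.Y185.LG

open MeasureTheory Set Pool.Agent.Y995.LG
open scoped ENNReal Pointwise

theorem vol_affine {a r : ℝ} (S : Set ℝ) :
    volume ((fun y => a + r * y) '' S) = ENNReal.ofReal |r| * volume S := by
  have h1 : (fun y => a + r * y) '' S = (fun y => a + y) '' (r • S) := by
    rw [← image_smul, image_image]
    rfl
  rw [h1, image_add_left, measure_preimage_add, Measure.addHaar_smul, Module.finrank_self, pow_one]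

theorem vol_unit (S : Set unitInterval) : volume S = volume (Subtype.val '' S : Set ℝ) := by
  have h : MeasurableSet (Icc (0 : ℝ) 1) := measurableSet_Icc
  exact comap_subtype_coe_apply h volume S

theorem loc : S_LOCAL := by
  intro H hH c C hc hC p q z u v hper hGI hSR huv hne
  obtain ⟨hq0, hGI⟩ := hGI
  obtain ⟨u', v', hu0, huv', hv1, heq, hseg⟩ := hSR
  have hvu : 0 < v - u := sub_pos.2 huv
  have hlt : u' < v' := by
    rcases lt_or_eq_of_le huv' with h | h
    · exact h
    · exfalso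
      subst h
      obtain ⟨s, hus, hsv, hs⟩ := hne
      apply hs
      have h1 := hseg ((s - u) / (v - u)) (by apply div_nonneg <;> linarith)
        (by rw [div_le_one hvu]; linarith)
      have h2 := hseg 0 le_rfl zero_le_one
      rw [sub_self, mul_zero, add_zero, div_mul_cancel₀ _ hvu.ne', add_sub_cancel] at h1
      rw [sub_self, mul_zero, zero_mul, add_zero, add_zero] at h2
      rw [h1, h2]
  have hvu' : 0 < v' - u' := sub_pos.2 hlt
  set r : ℝ := (v' - u') / (v - u) with hr
  have hr0 : 0 < r := div_pos hvu' hvu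
  have hp : p.2 = q.2 * r := by
    rw [hr]
    field_simp
    exact heq
  have hp0 : 0 < p.2 := by
    rw [hp]
    exact mul_pos hq0 hr0
  refine ⟨hp0, fun S hS => ?_⟩
  -- the rescaled set
  set a : ℝ := u' - r * u with ha
  have hmaps : ∀ x ∈ Icc u v, a + r * x ∈ Icc (0 : ℝ) 1 := by
    intro x hx
    have h1 : a + r * x = u' + r * (x - u) := by rw [ha]; ring
    have h2 : r * (x - u) ≤ v' - u' := by
      have h3 : r * (v - u) = v' - u' := by rw [hr, div_mul_cancel₀ _ hvu.ne']
      rw [← h3]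
      exact mul_le_mul_of_nonneg_left (by linarith [hx.2]) hr0.le
    have h4 : 0 ≤ r * (x - u) := mul_nonneg hr0.le (by linarith [hx.1])
    rw [h1]
    exact ⟨by linarith, by linarith⟩
  set S' : Set unitInterval := {s | ∃ x ∈ S, (s : ℝ) = a + r * x} with hS'
  have hval : ∀ x ∈ Icc u v, ∀ h : a + r * x ∈ Icc (0 : ℝ) 1,
      per p.1 x = z + q.1 ⟨a + r * x, h⟩ := by
    intro x hx h
    have h1 := hseg ((x - u) / (v - u)) (div_nonneg (by linarith [hx.1]) hvu.le)
      (by rw [div_le_one hvu]; linarith [hx.2])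
    rw [div_mul_cancel₀ _ hvu.ne', add_sub_cancel] at h1
    have h2 : u' + (x - u) / (v - u) * (v' - u') = a + r * x := by
      rw [ha, hr]
      ring
    rw [h2, IccExtend_of_mem _ _ h] at h1
    exact h1
  have himg : per p.1 '' S = (fun w => z + w) '' (q.1 '' S') := by
    ext w
    constructor
    · rintro ⟨x, hx, rfl⟩
      exact ⟨_, ⟨⟨a + r * x, hmaps x (hS hx)⟩, ⟨x, hx, rfl⟩, rfl⟩, (hval x (hS hx) _).symm⟩
    · rintro ⟨_, ⟨s, ⟨x, hx, hsx⟩, rfl⟩, rfl⟩
      refine ⟨x, hx, ?_⟩
      rw [hval x (hS hx) (hmaps x (hS hx))]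
      have h1 : s = ⟨a + r * x, hmaps x (hS hx)⟩ := Subtype.ext hsx
      rw [h1]
  have hvol : volume S' = ENNReal.ofReal r * volume S := by
    rw [vol_unit]
    have h1 : (Subtype.val '' S' : Set ℝ) = (fun y => a + r * y) '' S := by
      ext y
      constructor
      · rintro ⟨s, ⟨x, hx, hsx⟩, rfl⟩
        exact ⟨x, hx, hsx.symm⟩
      · rintro ⟨x, hx, rfl⟩
        exact ⟨⟨a + r * x, hmaps x (hS hx)⟩, ⟨x, hx, rfl⟩, rfl⟩
    rw [h1, vol_affine, abs_of_pos hr0]
  have hk : ∀ k : ℝ, 0 < k →
      ENNReal.ofReal (k * p.2) * volume S = ENNReal.ofReal (k * q.2) * volume S' := by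
    intro k hk
    rw [hvol, ← mul_assoc, ← ENNReal.ofReal_mul (by positivity), hp, mul_assoc]
  have h := hGI S'
  rw [himg, hH, hk c hc, hk C hC]
  exact h

end Pool.Agent.Y185.LG
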